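import Mathlib
import Pool.Graph.R_pool_sql_team_39128cda.H.MP_f895a2.D
import Pool.Agent.KS6_5.Groth.UC

/-!
# MP_f895a2_an: spaces of operators on super-reflexive spaces without the Grothendieck property

There is a separable uniformly convex space `Y` with a monotone Schauder basis such that `B(X₁, X₂)`
is not a Grothendieck space for all normed spaces `X₁`, `X₂` that contain a complemented copy of
`Y`.  In particular every uniformly convex space `Z` is norm-one complemented in the uniformly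
convex space `X = Z ⊕₂ Y`, and `B(X)` is not a Grothendieck space.
-/

namespace Pool.Agent.Results.MP_f895a2_an.ComplementedEnlargements

open Filter Topology Pool.Agent.KS6_5.Groth Pool.Agent.H.MP_f895a2

universe u v w

/-- `E` is (isomorphic to) a complemented subspace of `X`. -/
def Complemented (E X : Type*) [NormedAddCommGroup E] [NormedSpace ℝ E]
    [NormedAddCommGroup X] [NormedSpace ℝ X] : Prop :=
  ∃ (i : E →L[ℝ] X) (p : X →L[ℝ] E), ∀ e, p (i e) = e

/-- `Y` has a monotone Schauder basis: a sequence `x` with dense linear span, biorthogonal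
functionals, and norm-one partial sum projections that fix the first `N` members and kill the
others. -/
def HasMonotoneBasis (Y : Type*) [NormedAddCommGroup Y] [NormedSpace ℝ Y] : Prop :=
  ∃ (x : ℕ → Y) (f : ℕ → Y →L[ℝ] ℝ) (P : ℕ → Y →L[ℝ] Y),
    (∀ i j, f i (x j) = if i = j then 1 else 0) ∧
    Dense (Submodule.span ℝ (Set.range x) : Set Y) ∧
    (∀ N, ‖P N‖ ≤ 1) ∧ (∀ N i, P N (x i) = if i < N then x i else 0)

theorem exY : ∃ (Y : Type) (_ : NormedAddCommGroup Y) (_ : NormedSpace ℝ Y) (_ : CompleteSpace Y)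
    (_ : UniformConvexSpace Y), HasMonotoneBasis Y ∧ ¬ GrothendieckOps Y Y := by
  obtain ⟨Y, _, _, _, _, x, f, P, h1, h2, h3, h4, h4', h5, h6⟩ :=
    exMR (default : HilbertBasis ℕ ℝ (lp (fun _ : ℕ => ℝ) 2)).orthonormal
  have b : ∀ (T : Y →L[ℝ] Y) n, |f n (T (x n))| ≤ 2 * ‖T‖ := fun T n => by
    have : ‖x n‖ ≤ 1 := (pow_le_one_iff_of_nonneg (norm_nonneg _) three_ne_zero).1
      (by simpa using h5 {n})
    exact (h3 _ _).trans (mul_le_mul_of_nonneg_left
      ((T.le_opNorm _).trans (mul_le_of_le_one_right (norm_nonneg _) this)) zero_le_two)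
  have : ∀ T : Y →L[ℝ] Y, ∃ l, Tendsto (fun n => f n (T (x n))) atTop (𝓝 l) := fun T => by
    refine tendsto_of_no_upcrossings dense_univ (fun u _ v _ huv h => ?_)
      (isBoundedUnder_of ⟨_, fun n => (abs_le.1 (b T n)).2⟩)
      (isBoundedUnder_of ⟨_, fun n => (abs_le.1 (b T n)).1⟩)
    refine osc (fw h1 h2 h3) (xw h5) h6 (T - ((u + v) / 2) • ContinuousLinearMap.id ℝ Y)
      (δ := (v - u) / 2) (by linarith) fun j => ?_
    rcases neg_one_pow_eq_or ℝ j with e | e
    · refine h.2.mono fun n hn => ?_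
      simp [e, h1]
      linarith
    · refine h.1.mono fun n hn => ?_
      simp [e, h1]
      linarith
  choose l hl using this
  let lam : (Y →L[ℝ] Y) →L[ℝ] ℝ := LinearMap.mkContinuous
    { toFun := l
      map_add' := fun S T => tendsto_nhds_unique (hl _) (by simpa using (hl S).add (hl T))
      map_smul' := fun a T => tendsto_nhds_unique (hl _) (by simpa using (hl T).const_mul a) } 2
    fun T => le_of_tendsto' (hl T).abs (b T)
  refine ⟨Y, _, _, ‹_›, ‹_›, ⟨x, f, P, h1, ?_, fun N =>
    (P N).opNorm_le_bound zero_le_one (h4 N), h4'⟩, fun hG => ?_⟩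
  · have h2' : Dense (Set.range (Finsupp.linearCombination ℝ x)) := h2
    rwa [← LinearMap.coe_range, Finsupp.range_linearCombination] at h2'
  · refine notw (fun n => (f n).comp (ContinuousLinearMap.apply ℝ Y (x n)) - lam) P
      (fun N => (P N).opNorm_le_bound zero_le_one (h4 N)) (fun k => ?_)
      (fun φ => hG _ (fun T => ?_) φ)
    · filter_upwards [eventually_gt_atTop k] with N hN
      have : l (P N) = 0 := tendsto_nhds_unique (hl _) (tendsto_const_nhds.congr' (by
        filter_upwards [eventually_ge_atTop N] with n hn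
        rw [h4', if_neg (not_lt.2 hn), map_zero]))
      show 1 ≤ f k (P N (x k)) - l (P N)
      rw [this, h4', if_pos hN, h1]
      simp
    · have := (hl T).sub_const (l T)
      rw [sub_self] at this
      exact this

/-- There is a separable uniformly convex Banach space `Y` with a monotone Schauder basis such that
`B(X₁, X₂)` fails the Grothendieck property whenever the normed spaces `X₁` and `X₂` both contain
a complemented copy of `Y`.  Hence for every uniformly convex Banach space `Z` the Hilbertian sum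
`X = Z ⊕₂ Y`, in which `Z` is norm-one complemented, is uniformly convex and `B(X)` is not a
Grothendieck space. -/
theorem result :
    ∃ (Y : Type) (_ : NormedAddCommGroup Y) (_ : NormedSpace ℝ Y) (_ : CompleteSpace Y)
      (_ : UniformConvexSpace Y),
      TopologicalSpace.SeparableSpace Y ∧ HasMonotoneBasis Y ∧
      (∀ (X₁ : Type u) (X₂ : Type v) [NormedAddCommGroup X₁] [NormedSpace ℝ X₁]
        [NormedAddCommGroup X₂] [NormedSpace ℝ X₂],
        Complemented Y X₁ → Complemented Y X₂ → ¬ GrothendieckOps X₁ X₂) ∧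
      (∀ (Z : Type w) [NormedAddCommGroup Z] [NormedSpace ℝ Z] [CompleteSpace Z]
        [UniformConvexSpace Z],
        UniformConvexSpace (WithLp 2 (Z × Y)) ∧ CompleteSpace (WithLp 2 (Z × Y)) ∧
        (∃ (i : Z →ₗᵢ[ℝ] WithLp 2 (Z × Y)) (p : WithLp 2 (Z × Y) →L[ℝ] Z),
          ‖p‖ ≤ 1 ∧ ∀ z, p (i z) = z) ∧
        ¬ GrothendieckOps (WithLp 2 (Z × Y)) (WithLp 2 (Z × Y))) := by
  obtain ⟨Y, _, _, _, _, hB, hG⟩ := exY
  have hN : ∀ (X₁ : Type u) (X₂ : Type v) [NormedAddCommGroup X₁] [NormedSpace ℝ X₁]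
        [NormedAddCommGroup X₂] [NormedSpace ℝ X₂],
        Complemented Y X₁ → Complemented Y X₂ → ¬ GrothendieckOps X₁ X₂ := by
    rintro X₁ X₂ _ _ _ _ ⟨i₁, p₁, h₁⟩ ⟨i₂, p₂, h₂⟩ h
    exact hG (h.of_complemented i₁ p₁ h₁ i₂ p₂ h₂)
  refine ⟨Y, _, _, ‹_›, ‹_›, ?_, hB, hN, ?_⟩
  · obtain ⟨x, -, -, -, hd, -⟩ := hB
    refine ⟨?_⟩
    have : TopologicalSpace.IsSeparable (Submodule.span ℝ (Set.range x) : Set Y) :=
      (Set.countable_range x).isSeparable.span
    have h2 := this.closure
    rw [hd.closure_eq] at h2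
    obtain ⟨s, hs, hs2⟩ := h2
    exact ⟨s, hs, fun y => hs2 (Set.mem_univ y)⟩
  · intro Z _ _ _ _
    refine ⟨uniformConvex_prod Z Y, inferInstance, ?_, ?_⟩
    · refine ⟨⟨(WithLp.linearEquiv 2 ℝ (Z × Y)).symm.toLinearMap ∘ₗ LinearMap.inl ℝ Z Y,
        fun z => ?_⟩, WithLp.fstL 2 ℝ Z Y, ?_, fun z => rfl⟩
      · exact WithLp.norm_toLp_fst 2 Z Y z
      · refine ContinuousLinearMap.opNorm_le_bound _ zero_le_one fun z => ?_
        rw [one_mul]
        have h := WithLp.prod_norm_sq_eq_of_L2 z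
        have : ‖z.fst‖ ^ 2 ≤ ‖z‖ ^ 2 := by nlinarith [sq_nonneg ‖z.snd‖]
        exact (pow_le_pow_iff_left₀ (norm_nonneg _) (norm_nonneg _) two_ne_zero).1 this
    · have hc : Complemented Y (WithLp 2 (Z × Y)) :=
        ⟨((WithLp.prodContinuousLinearEquiv 2 ℝ Z Y).symm : (Z × Y) →L[ℝ] WithLp 2 (Z × Y)).comp
          (ContinuousLinearMap.inr ℝ Z Y), WithLp.sndL 2 ℝ Z Y, fun y => rfl⟩
      rintro h
      obtain ⟨i₁, p₁, h₁⟩ := hc
      exact hG (h.of_complemented i₁ p₁ h₁ i₁ p₁ h₁)

end Pool.Agent.Results.MP_f895a2_an.ComplementedEnlargements
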